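import Mathlib

namespace Pool.Agent.Results.MP_c23e02_co.Full

/-- `S` is `D`-colorable: colour `j` avoids the distances in column `j` of `D`. -/
def Colorable (S : Set ℝ) {k m : ℕ} (D : Fin k → Fin m → ℝ) : Prop :=
  ∃ T : S → Fin m, ∀ (j : Fin m) (i : Fin k) (x y : S),
    ¬ (|x.1 - y.1| = D i j ∧ T x = j ∧ T y = j)

/-- The `k`-th upper chromatic number, with value `⊤` if no `m` works. -/
noncomputable def chi (k : ℕ) (S : Set ℝ) : ℕ∞ :=
  sInf {c | ∃ m : ℕ, c = m ∧ 0 < m ∧ ∀ D : Fin k → Fin m → ℝ, (∀ i j, 0 < D i j) → Colorable S D}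

theorem result : ∀ k : ℕ, chi k Set.univ = chi k (Set.range (Int.cast : ℤ → ℝ)) := by
  intro k
  unfold chi
  congr 1
  ext c
  refine exists_congr fun m => and_congr_right fun _ => and_congr_right fun _ =>
    ⟨fun h D hD => ?_, fun h D hD => ?_⟩
  · obtain ⟨T, hT⟩ := h D hD
    exact ⟨fun x => T ⟨x.1, trivial⟩, fun j i x y => hT j i ⟨x.1, trivial⟩ ⟨y.1, trivial⟩⟩
  · obtain ⟨f, hf⟩ := Module.exists_dual_forall_apply_ne_zero (K := ℚ)
      (fun p : Fin k × Fin m => D p.1 p.2) fun p => (hD _ _).ne'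
    let N : ℕ := ∏ p : Fin k × Fin m, (f (D p.1 p.2)).den
    have hN : (N : ℚ) ≠ 0 := Nat.cast_ne_zero.2 (Finset.prod_ne_zero_iff.2 fun p _ => Rat.den_nz _)
    have hz : ∀ i j, ∃ z : ℤ, N * f (D i j) = z := fun i j => by
      obtain ⟨a, ha⟩ : (f (D i j)).den ∣ N :=
        Finset.dvd_prod_of_mem (fun p : Fin k × Fin m => (f (D p.1 p.2)).den)
          (Finset.mem_univ (i, j))
      exact ⟨a * (f (D i j)).num, by rw [ha]; push_cast; rw [← Rat.den_mul_eq_num]; ring⟩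
    choose z hz using hz
    obtain ⟨T, hT⟩ := h (fun i j => |(z i j : ℝ)|) fun i j => abs_pos.2 (by
      have := mul_ne_zero hN (hf (i, j))
      rw [hz] at this
      exact_mod_cast this)
    refine ⟨fun x => T ⟨(⌊N * f x.1⌋ : ℤ), _, rfl⟩, fun j i x y q => hT j i _ _ ⟨?_, q.2⟩⟩
    have key : ∀ a b : ℝ, a - b = D i j → ((⌊N * f a⌋ : ℤ) : ℝ) - (⌊N * f b⌋ : ℤ) = z i j := by
      intro a b e
      rw [sub_eq_iff_eq_add'.1 e, map_add, mul_add, hz, Int.floor_add_intCast]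
      push_cast; ring
    rcases eq_or_eq_neg_of_abs_eq q.1 with e | e
    · exact congrArg _ (key _ _ e)
    · rw [abs_sub_comm]; exact congrArg _ (key _ _ (by linarith))

end Pool.Agent.Results.MP_c23e02_co.Full
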